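import Pool.Agent.H3.ASM.C11
import Pool.Agent.H31.W.H92.ALT.Jn7
import Pool.Agent.H31.W.H92.ALT.Jt2
import Pool.Agent.H31.W1.H91.FR.QpG
import Pool.Agent.H57.SWC.Lx
import Pool.Agent.H57.SWC.Lxa

/-!
# The cells `one, one, thin` and `one, one, sta` for `n = 4`, from their parts

`FulB`: the rates of the last coordinate are full. `c11_of`: the cell from the class theorem of the
last coordinate at the windows of full rate (`CelTP`), and at the windows with a family of small rate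
(`CbN`). `c11t_of`, `c11s_of`; `c11t_ofV`, `c11s_ofV`: from blind families (`VbTP`).
-/

set_option autoImplicit false

namespace Pool.W.ASM

open Pool.ASM

open MeasureTheory Set Filter Topology
open Pool.GEN Pool.PKG Pool.SW Pool.ALT
open Pool.LA91 (FaQ sumQ HerQ her_sum her_fa aePG_fa aePG_sum)
open Pool.ONE (Ext0 Ext)
open Pool.MIC6

/-- **The rates of the last coordinate are full.** -/
def FulB (Sl : ℕ → ℝ) : Pool.PKG.PropZ 4 (Pool.ALT.PosR × ℕ) := fun b => Pool.ALT.FulR (Pool.W.ASM.AdmN 2) (Sl 3 * Real.log 2) b.1 b.2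


/-- **A class theorem of the last coordinate** for two ranges of the slopes. -/
theorem CelTP.or {k : Pool.PKG.Kg} {Φ Φ' : (ℕ → ℝ) → Prop} {Λ : Type} {Z : (ℕ → ℝ) → Pool.PKG.PropZ 4 Λ}
    (H : Pool.W.ASM.CelTP k Φ Z) (H' : Pool.W.ASM.CelTP k Φ' Z) {Ψ : (ℕ → ℝ) → Prop} (h : ∀ Sl, Ψ Sl → Φ Sl ∨ Φ' Sl) :
    Pool.W.ASM.CelTP k Ψ Z := by
  obtain ⟨ι, hι, Q, h1, h2, H⟩ := H
  obtain ⟨ι', hι', Q', h1', h2', H'⟩ := H'
  refine ⟨ι ⊕ ι', inferInstance, Pool.LA91.sumQ Q Q', Pool.W.LA91.aePG_sum h1 h2 h1', Pool.LA91.her_sum h2 h2', ?_⟩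
  intro hh h0 h1 Sl hS hΨ
  rcases h Sl hΨ with hΦ | hΦ
  · exact (H hh h0 h1 Sl hS hΦ).inl
  · exact (H' hh h0 h1 Sl hS hΦ).inr

/-- **The last coordinate at the windows with a family of small rate**, for two ranges. -/
theorem CbN.or {k : Pool.PKG.Kg} {Φ Φ' : (ℕ → ℝ) → Prop} (H : Pool.W.ASM.CbN k Φ) (H' : Pool.W.ASM.CbN k Φ')
    {Ψ : (ℕ → ℝ) → Prop} (h : ∀ Sl, Ψ Sl → Φ Sl ∨ Φ' Sl) : Pool.W.ASM.CbN k Ψ := by
  obtain ⟨ι, hι, Q, h1, h2, H⟩ := H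
  obtain ⟨ι', hι', Q', h1', h2', H'⟩ := H'
  refine ⟨ι ⊕ ι', inferInstance, Pool.LA91.sumQ Q Q', Pool.W.LA91.aePG_sum h1 h2 h1', Pool.LA91.her_sum h2 h2', ?_⟩
  intro hh h0 h1 Sl hS hΨ β' hβ D
  rcases h Sl hΨ with hΦ | hΦ
  · exact (H hh h0 h1 Sl hS hΦ β' hβ D).inl
  · exact (H' hh h0 h1 Sl hS hΦ β' hβ D).inr


end Pool.W.ASM
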